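import Pool.Agent.Lib.MP_4cb3df_gt.Proof

open Cardinal Pool.Agent.Lib.MP_4cb3df_gt

universe u

/-- **Theorem.** For every infinite cardinal `κ`, every set `K` of cardinality `κ` and every
index set `I` of cardinality greater than `κ` (for example `κ⁺`), the `<κ`-box power of the
discrete space `K` over `I` is not metanormal. -/
theorem Pool.Agent.Results.MP_4cb3df_gt.NotMetanormal.result (κ : Cardinal.{u}) (hκ : ℵ₀ ≤ κ)
    (I K : Type u) (hK : #K = κ) (hI : κ < #I) : ¬ Metanormal (BoxPower κ I K) :=
  not_metanormal κ hκ I K hK hI
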